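import Pool.Agent.H19.CpC

/-! Countable tightness and the Frechet-Urysohn property of compact subspaces of `C_p(X × K)`. -/

namespace Pool.Agent.Results.MP_e70507_gt.Both

universe u v

/-- Countable tightness. -/
def CountablyTight (Z : Type*) [TopologicalSpace Z] : Prop :=
  ∀ (A : Set Z) (z : Z), z ∈ closure A → ∃ B ⊆ A, B.Countable ∧ z ∈ closure B

/-- The Frechet-Urysohn property. -/
def FrechetUrysohn (Z : Type*) [TopologicalSpace Z] : Prop :=
  ∀ (A : Set Z) (z : Z), z ∈ closure A →
    ∃ x : ℕ → Z, (∀ n, x n ∈ A) ∧ Filter.Tendsto x Filter.atTop (nhds z)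

/-- `C_p(X)`: the continuous real functions inside the product `ℝ^X`. -/
def Cp (X : Type*) [TopologicalSpace X] : Set (X → ℝ) := {f | Continuous f}

theorem result (X : Type u) [TopologicalSpace X] [T35Space X]
    (K : Type v) [TopologicalSpace K] [CompactSpace K] [T2Space K] :
    ((∀ S ⊆ Cp X, IsCompact S → CountablyTight S) →
      ∀ S ⊆ Cp (X × K), IsCompact S → CountablyTight S) ∧
    ((∀ S ⊆ Cp X, IsCompact S → FrechetUrysohn S) →
      ∀ S ⊆ Cp (X × K), IsCompact S → FrechetUrysohn S) := by
  refine ⟨fun H S hS hSc => ?_, fun H S hS hSc => ?_⟩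
  · haveI := isCompact_iff_compactSpace.1 hSc
    intro A z hz
    exact Pool.Agent.H19.Cp.tight (X := X) (K := K) (Y := S)
      (fun T hT hT' => Pool.Agent.H19.Cp.ct_of_sub (H T hT hT'))
      (F := Subtype.val) (fun s => hS s.2) continuous_subtype_val Subtype.val_injective A hz
  · haveI := isCompact_iff_compactSpace.1 hSc
    haveI := Pool.Agent.H19.Cp.frechet (X := X) (K := K) (Y := S)
      (fun T hT hT' => ⟨fun A z hz => H T hT hT' A z hz⟩)
      (F := Subtype.val) (fun s => hS s.2) continuous_subtype_val Subtype.val_injective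
    intro A z hz
    exact mem_closure_iff_seq_limit.1 hz

end Pool.Agent.Results.MP_e70507_gt.Both
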